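import Pool.Agent.H31.LP

namespace Pool.Agent.Results.MP_d63bef_al.Main

open Pool.Agent.H31.LP

theorem result : ∃ (K : Type) (_ : Field K) (A B : Matrix (Fin 2) (Fin 2) K),
    Leonard A B ∧ Beta2 A B ∧ ∀ x y z : Matrix (Fin 2) (Fin 2) K,
      Eqt x y → Eqt y z → Eqt z x → ¬InSp A x y ∨ ¬InSp B y z := by
  classical
  obtain ⟨t, ht⟩ := Infinite.exists_notMem_finset ({0, 1} : Finset (AlgebraicClosure (ZMod 2)))
  rw [Finset.mem_insert, Finset.mem_singleton, not_or] at ht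
  exact ⟨AlgebraicClosure (ZMod 2), inferInstance,
    main (by exact_mod_cast CharP.cast_eq_zero (AlgebraicClosure (ZMod 2)) 2) t ht.1 ht.2⟩

end Pool.Agent.Results.MP_d63bef_al.Main
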